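import Pool.Agent.E8helper11.GS.Stm

/-!
# Project GS: the weights of the hits are large
-/

set_option autoImplicit false

open Filter Topology
open scoped Classical

namespace Pool.Agent.E8helper38.GS

open Pool.Agent.E8helper11.GS

theorem polyexp (c : ℝ) (d : ℕ) {ε : ℝ} (hε : 0 < ε) :
    ∀ᶠ k : ℕ in atTop, c * ((k : ℝ) + 1) ^ d ≤ (4 : ℝ) ^ (ε * k) := by
  have hr : (1 : ℝ) < (4 : ℝ) ^ ε := Real.one_lt_rpow (by norm_num) hε
  have hr0 : (0 : ℝ) < (4 : ℝ) ^ ε := by positivity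
  have h1 := (tendsto_pow_const_div_const_pow_of_one_lt d hr).comp (tendsto_add_atTop_nat 1)
  have hc : 0 < 1 / ((|c| + 1) * (4 : ℝ) ^ ε) := by positivity
  filter_upwards [h1.eventually (gt_mem_nhds hc)] with k hk
  have h2 : (((k + 1 : ℕ) : ℝ)) ^ d / ((4 : ℝ) ^ ε) ^ (k + 1) < 1 / ((|c| + 1) * (4 : ℝ) ^ ε) := hk
  rw [div_lt_div_iff₀ (by positivity) (by positivity), one_mul, pow_succ] at h2
  have h3 : (4 : ℝ) ^ (ε * k) = ((4 : ℝ) ^ ε) ^ k := by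
    rw [Real.rpow_mul (by norm_num), Real.rpow_natCast]
  rw [h3]
  have h4 : (((k + 1 : ℕ) : ℝ)) ^ d * (|c| + 1) < ((4 : ℝ) ^ ε) ^ k := by
    have h5 : ((((k + 1 : ℕ) : ℝ)) ^ d * (|c| + 1)) * (4 : ℝ) ^ ε < ((4 : ℝ) ^ ε) ^ k * (4 : ℝ) ^ ε := by
      calc _ = (((k + 1 : ℕ) : ℝ)) ^ d * ((|c| + 1) * (4 : ℝ) ^ ε) := by ring
        _ < _ := h2
    exact lt_of_mul_lt_mul_right h5 hr0.le
  push_cast at h4
  have h6 : (0 : ℝ) ≤ ((k : ℝ) + 1) ^ d := by positivity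
  have h7 : c ≤ |c| + 1 := (le_abs_self c).trans (by linarith)
  calc c * ((k : ℝ) + 1) ^ d ≤ (|c| + 1) * ((k : ℝ) + 1) ^ d := mul_le_mul_of_nonneg_right h7 h6
    _ = ((k : ℝ) + 1) ^ d * (|c| + 1) := mul_comm _ _
    _ ≤ _ := h4.le

theorem Ms_le {m : ℕ → ℕ} (hm : Sub m) {η : ℝ} (hη : 0 < η) :
    ∀ᶠ k : ℕ in atTop, (Ms m (k + 1) : ℝ) ≤ (4 : ℝ) ^ (η * k) := by
  obtain ⟨k0, hk0⟩ := eventually_atTop.1 (hm (η / 2) (by positivity))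
  set M : ℝ := 1 + ∑ i ∈ Finset.range k0, (m i : ℝ) with hM
  have hsum0 : 0 ≤ ∑ i ∈ Finset.range k0, (m i : ℝ) := Finset.sum_nonneg fun i _ => by positivity
  have hM1 : 1 ≤ M := by linarith
  have hall : ∀ i k : ℕ, i ≤ k → (m i : ℝ) ≤ M * (4 : ℝ) ^ (η / 2 * k) := by
    intro i k hik
    have h4k : (1 : ℝ) ≤ (4 : ℝ) ^ (η / 2 * k) := Real.one_le_rpow (by norm_num) (by positivity)
    rcases lt_or_ge i k0 with hi | hi
    · have h1 : (m i : ℝ) ≤ ∑ i ∈ Finset.range k0, (m i : ℝ) :=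
        Finset.single_le_sum (f := fun i => (m i : ℝ)) (fun i _ => by positivity)
          (Finset.mem_range.2 hi)
      nlinarith
    · have h1 := hk0 i hi
      have h2 : (4 : ℝ) ^ (η / 2 * i) ≤ (4 : ℝ) ^ (η / 2 * k) := by
        apply Real.rpow_le_rpow_of_exponent_le (by norm_num)
        have : (i : ℝ) ≤ k := by exact_mod_cast hik
        nlinarith
      nlinarith
  filter_upwards [polyexp M 1 (show 0 < η / 2 by positivity)] with k hk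
  have h1 : (Ms m (k + 1) : ℝ) ≤ (k + 1 : ℕ) * (M * (4 : ℝ) ^ (η / 2 * k)) := by
    unfold Ms
    rw [Nat.cast_sum]
    have h2 := Finset.sum_le_card_nsmul (Finset.range (k + 1)) (fun i => (m i : ℝ))
      (M * (4 : ℝ) ^ (η / 2 * k)) fun i hi => hall i k (Nat.lt_succ_iff.1 (Finset.mem_range.1 hi))
    rwa [Finset.card_range, nsmul_eq_mul] at h2
  have h3 : (4 : ℝ) ^ (η * k) = (4 : ℝ) ^ (η / 2 * k) * (4 : ℝ) ^ (η / 2 * k) := by
    rw [← Real.rpow_add (by norm_num)]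
    congr 1
    ring
  rw [h3]
  refine h1.trans ?_
  push_cast
  calc ((k : ℝ) + 1) * (M * (4 : ℝ) ^ (η / 2 * k)) = (M * ((k : ℝ) + 1) ^ 1) * (4 : ℝ) ^ (η / 2 * k) := by
        ring
    _ ≤ _ := mul_le_mul_of_nonneg_right hk (by positivity)

theorem t_LAM : S_LAM := by
  intro hPR m hm hlo δ hδ
  obtain ⟨k1, hk1⟩ := hPR
  set η : ℝ := δ / 16 with hη
  have hη0 : 0 < η := by positivity
  filter_upwards [Ms_le hm hη0, hlo, eventually_ge_atTop k1, eventually_ge_atTop 1,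
    polyexp (16 * (4 : ℝ) ^ (1 - δ)) 3 (show 0 < δ - 7 * η by rw [hη]; linarith)] with k h1 h2 h3 h4 h5
  have hmk : 1 ≤ m k := le_trans (Nat.one_le_pow _ _ h4) h2
  have hmM : m k ≤ Ms m (k + 1) := by
    unfold Ms
    exact Finset.single_le_sum (f := m) (fun i _ => Nat.zero_le _)
      (Finset.mem_range.2 (Nat.lt_succ_self k))
  have hmk' : (1 : ℝ) ≤ m k := by exact_mod_cast hmk
  have hmM' : (m k : ℝ) ≤ Ms m (k + 1) := by exact_mod_cast hmM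
  have hM0 : (0 : ℝ) < Ms m (k + 1) := by linarith
  have hPRk := hk1 k h3
  have hD : (0 : ℝ) < 8 * (Ms m (k + 1) : ℝ) ^ 6 * (m k : ℝ) * ((k : ℝ) + 1) ^ 2 := by positivity
  have key : (4 : ℝ) ^ ((1 - δ) * ((k : ℝ) + 1)) ≤ lam m k := by
    unfold lam
    rw [le_div_iff₀ hD]
    -- the denominator
    have e1 : 8 * (Ms m (k + 1) : ℝ) ^ 6 * (m k : ℝ) * ((k : ℝ) + 1) ^ 2 ≤
        8 * ((4 : ℝ) ^ (η * k)) ^ 6 * (4 : ℝ) ^ (η * k) * ((k : ℝ) + 1) ^ 2 := by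
      have h6 : (m k : ℝ) ≤ (4 : ℝ) ^ (η * k) := hmM'.trans h1
      gcongr
    have e2 : ((4 : ℝ) ^ (η * k)) ^ 6 * (4 : ℝ) ^ (η * k) = (4 : ℝ) ^ (7 * η * k) := by
      rw [← pow_succ, ← Real.rpow_natCast, ← Real.rpow_mul (by norm_num)]
      congr 1
      push_cast
      ring
    have e3 : (4 : ℝ) ^ ((1 - δ) * ((k : ℝ) + 1)) = (4 : ℝ) ^ (1 - δ) * (4 : ℝ) ^ ((1 - δ) * k) := by
      rw [← Real.rpow_add (by norm_num)]
      congr 1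
      ring
    have e4 : (4 : ℝ) ^ ((1 - δ) * k) * (4 : ℝ) ^ (7 * η * k) * (4 : ℝ) ^ ((δ - 7 * η) * k) =
        (4 : ℝ) ^ k := by
      rw [← Real.rpow_add (by norm_num), ← Real.rpow_add (by norm_num), ← Real.rpow_natCast]
      congr 1
      ring
    have hk0 : (0 : ℝ) < (k : ℝ) + 1 := by positivity
    have e5 : 2 * ((k : ℝ) + 1) * ((4 : ℝ) ^ ((1 - δ) * ((k : ℝ) + 1)) *
        (8 * (Ms m (k + 1) : ℝ) ^ 6 * (m k : ℝ) * ((k : ℝ) + 1) ^ 2)) ≤ (4 : ℝ) ^ k := by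
      calc 2 * ((k : ℝ) + 1) * ((4 : ℝ) ^ ((1 - δ) * ((k : ℝ) + 1)) *
            (8 * (Ms m (k + 1) : ℝ) ^ 6 * (m k : ℝ) * ((k : ℝ) + 1) ^ 2)) ≤
          2 * ((k : ℝ) + 1) * ((4 : ℝ) ^ ((1 - δ) * ((k : ℝ) + 1)) *
            (8 * ((4 : ℝ) ^ (η * k)) ^ 6 * (4 : ℝ) ^ (η * k) * ((k : ℝ) + 1) ^ 2)) := by
            gcongr
        _ = (16 * (4 : ℝ) ^ (1 - δ) * ((k : ℝ) + 1) ^ 3) *
            ((4 : ℝ) ^ ((1 - δ) * k) * (((4 : ℝ) ^ (η * k)) ^ 6 * (4 : ℝ) ^ (η * k))) := by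
            rw [e3]; ring
        _ ≤ (4 : ℝ) ^ ((δ - 7 * η) * k) *
            ((4 : ℝ) ^ ((1 - δ) * k) * (((4 : ℝ) ^ (η * k)) ^ 6 * (4 : ℝ) ^ (η * k))) :=
            mul_le_mul_of_nonneg_right h5 (by positivity)
        _ = (4 : ℝ) ^ k := by rw [e2, ← e4]; ring
    have e6 := e5.trans hPRk
    exact le_of_mul_le_mul_left e6 (by positivity)
  linarith

end Pool.Agent.E8helper38.GS
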